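import Pool.Agent.W785.DF.Stubs
import Pool.Agent.H459R3.NS.Phys2

/-! # Uniform convergence of Fourier series with two derivatives (`S_tail`) -/

open MeasureTheory Set Filter Topology
open scoped ContDiff

namespace Pool.Agent.W345.NS
open H459R3.NS (V K3 Per pd fr ee SP)
open Pool.Agent.W785.DF

/-- the remainder of the Fourier series -/
noncomputable def tl (S : Finset K3) (g : V → ℝ) (x : V) : ℝ := g x - (∑ k ∈ S, fr g k * ee k x).re

theorem sum_contDiff (S : Finset K3) (c : K3 → ℂ) :
    ContDiff ℝ ∞ (fun x : V => ∑ k ∈ S, c k * ee k x) :=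
  ContDiff.sum fun k _ => contDiff_const.mul (H459R3.NS.ee_contDiff k)

theorem tl_SP {g : V → ℝ} (hg : SP g) (S : Finset K3) : SP (tl S g) where
  smooth := hg.smooth.sub (Complex.reCLM.contDiff.comp (sum_contDiff S _))
  per := fun i x => by
    unfold tl
    rw [hg.per i x]
    congr 2
    exact Finset.sum_congr rfl fun k _ => by rw [H459R3.NS.ee_per k i x]

theorem pd_tl {g : V → ℝ} (hg : SP g) (S : Finset K3) (j : Fin 3) :
    pd j (tl S g) = tl S (pd j g) := by
  funext x
  have h1 : HasFDerivAt g (fderiv ℝ g x) x :=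
    ((hg.smooth.differentiable (by norm_cast)) x).hasFDerivAt
  have h2 : HasFDerivAt (fun y : V => ∑ k ∈ S, fr g k * ee k y)
      (∑ k ∈ S, fr g k • fderiv ℝ (ee k) x) x := by
    refine HasFDerivAt.fun_sum fun k _ => ?_
    have he : HasFDerivAt (ee k) (fderiv ℝ (ee k) x) x :=
      (((H459R3.NS.ee_contDiff k (n := 1)).differentiable one_ne_zero) x).hasFDerivAt
    exact he.const_mul (fr g k)
  have h3 : HasFDerivAt (tl S g) (fderiv ℝ g x -
      Complex.reCLM.comp (∑ k ∈ S, fr g k • fderiv ℝ (ee k) x)) x :=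
    h1.sub (Complex.reCLM.hasFDerivAt.comp x h2)
  unfold pd
  rw [h3.fderiv]
  unfold tl
  simp only [sub_apply, ContinuousLinearMap.comp_apply, sum_apply, smul_apply,
    Complex.reCLM_apply, smul_eq_mul]
  congr 2
  refine Finset.sum_congr rfl fun k _ => ?_
  have e1 := H459R3.NS.pd_ee k j x
  have e2 := congrFun (H459R3.NS.fr_pd hg j) k
  unfold pd at e1 e2
  rw [e1, e2, H459R3.NS.D]
  ring

theorem tl_small {g : V → ℝ} (hg : SP g) {ε : ℝ} (hε : 0 < ε) : ∃ S0 : Finset K3,
    ∀ S : Finset K3, S0 ⊆ S → ∀ x, |tl S g x| ≤ ε := by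
  have hs : Summable (fun k => ‖fr g k‖) := (H459R3.NS.rap_fr hg).summable.norm
  have h1 := tendsto_tsum_compl_atTop_zero (fun k => ‖fr g k‖)
  have h2 : ∀ᶠ S : Finset K3 in atTop, ∑' a : {x // x ∉ S}, ‖fr g a‖ < ε :=
    h1.eventually_lt_const hε
  obtain ⟨S0, hS0⟩ := eventually_atTop.1 h2
  refine ⟨S0, fun S hS x => ?_⟩
  have h3 := hS0 S hS
  have h4 := H459R3.NS.hasSum_fc (H459R3.NS.per_ofReal hg.per)
    (H459R3.NS.contDiff_ofReal hg.smooth).continuous (H459R3.NS.rap_fr hg).summable x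
  have hn : ∀ k, ‖fr g k * ee k x‖ = ‖fr g k‖ := fun k => by
    rw [norm_mul, H459R3.NS.norm_ee, mul_one]
  have hsum : Summable (fun k => fr g k * ee k x) := h4.summable
  have h5 := hsum.sum_add_tsum_compl (s := S)
  rw [show ∑' k, fr g k * ee k x = (g x : ℂ) from h4.tsum_eq] at h5
  have h6 : ((tl S g x : ℝ)) = (∑' k : {x // x ∉ S}, fr g k * ee k x).re := by
    unfold tl
    have h7 : (∑' k : {x // x ∉ S}, fr g k * ee k x) = (g x : ℂ) - ∑ k ∈ S, fr g k * ee k x := by
      rw [← h5]
      simp only [add_sub_cancel_left]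
      rfl
    rw [h7, Complex.sub_re, Complex.ofReal_re]
  rw [h6]
  refine (Complex.abs_re_le_norm _).trans ?_
  have h8 : Summable (fun k : {x // x ∉ S} => ‖fr g k * ee k x‖) := by
    simp_rw [hn]
    exact hs.subtype _
  refine (norm_tsum_le_tsum_norm h8).trans ?_
  simp_rw [hn]
  exact h3.le

theorem main : S_tail := by
  intro h hsm hper ε hε
  have hh : SP h := ⟨hsm, hper⟩
  obtain ⟨A, hA⟩ := tl_small hh hε
  choose B hB using fun j => tl_small (hh.pd j) hε
  choose C hC using fun j => tl_small ((hh.pd j).pd j) (show 0 < ε / 3 by positivity)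
  refine ⟨A ∪ (Finset.univ.biUnion B ∪ Finset.univ.biUnion C), fun S hS r hr => ?_⟩
  have hrt : r = tl S h := funext hr
  subst hrt
  have hsp := tl_SP hh S
  refine ⟨hsp.smooth, hsp.per, fun x => ⟨?_, ?_, ?_⟩⟩
  · exact hA S (Finset.subset_union_left.trans hS) x
  · intro j
    rw [pd_tl hh]
    refine hB j S (Finset.Subset.trans ?_ hS) x
    exact (Finset.subset_biUnion_of_mem B (Finset.mem_univ j)).trans
      (Finset.subset_union_left.trans Finset.subset_union_right)
  · have e : ∀ j, |pd j (pd j (tl S h)) x| ≤ ε / 3 := by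
      intro j
      rw [pd_tl hh, pd_tl (hh.pd j)]
      refine hC j S (Finset.Subset.trans ?_ hS) x
      exact (Finset.subset_biUnion_of_mem C (Finset.mem_univ j)).trans
        (Finset.subset_union_right.trans Finset.subset_union_right)
    refine (Finset.abs_sum_le_sum_abs _ _).trans ?_
    refine (Finset.sum_le_sum fun j _ => e j).trans (le_of_eq ?_)
    rw [Finset.sum_const, Finset.card_univ, Fintype.card_fin, nsmul_eq_mul]
    push_cast
    ring

end Pool.Agent.W345.NS
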